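import Pool.Agent.W2helper61.NT.Union

/-!
Above every computable function there is a computable nondecreasing time bound `t` for which
`NTIME(Pol t)` is closed under complementation.
-/

set_option autoImplicit false

namespace Pool.Agent.Results.MP_fa4772_lc.ClosureAboveAll

open Pool.Agent.W2helper61.NT

theorem result (h : ℕ → ℕ) (hh : TMComputable h) :
    ∃ t : ℕ → ℕ, TMComputable t ∧ Monotone t ∧ (∀ n, h n ≤ t n) ∧
      coNTIME t = NTIME t ∧ NTIME t = DTIME t :=
  union_closure h hh

end Pool.Agent.Results.MP_fa4772_lc.ClosureAboveAll
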