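import Pool.Agent.W2helper61.NT.Gap1

/-!
In every superpolynomial gap below an honest function there are computable nondecreasing time
bounds `t'` for which `NTIME(Pol t')` is not closed under complementation.
-/

set_option autoImplicit false

namespace Pool.Agent.Results.MP_fa4772_lc.NonclosureInGaps

open Pool.Agent.W2helper61.NT

theorem result (t g : ℕ → ℕ) (ht : TMComputable t) (hg : Honest g)
    (htm : Monotone t) (hgm : Monotone g) (hid : ∀ n, n ≤ g n) (htg : ∀ n, t n ≤ g n)
    (hdom : ∀ c, ∃ n0, ∀ n, n0 ≤ n → t n ^ c + c ≤ g n) :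
    ∃ t' : ℕ → ℕ, TMComputable t' ∧ Monotone t' ∧ (∀ n, t n ≤ t' n ∧ t' n ≤ g n) ∧
      coNTIME t' ≠ NTIME t' :=
  nonclosure_between t g ht hg htm hgm hid htg hdom

end Pool.Agent.Results.MP_fa4772_lc.NonclosureInGaps
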