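import Pool.Agent.W2helper61.NT.Sig3

/-!
The set of codes of computable time bounds `t` for which `NTIME(Pol t)` is closed under
complementation is `Pi^0_3`-complete, also among arbitrarily large nondecreasing bounds.
-/

set_option autoImplicit false

namespace Pool.Agent.Results.MP_fa4772_lc.Pi03Complete

open Pool.Agent.W2helper61.NT

theorem result :
    -- membership in `Pi^0_3`
    (∃ R : Nat.Partrec.Code → ℕ → ℕ → ℕ → Bool,
      Computable (fun q : Nat.Partrec.Code × ℕ × ℕ × ℕ => R q.1 q.2.1 q.2.2.1 q.2.2.2) ∧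
      ∀ c, ClosedCode c ↔ ∀ a, ∃ b, ∀ d, R c a b d = true) ∧
    ∀ h : ℕ → ℕ, Computable h →
      -- hardness for `Pi^0_3`, with nondecreasing bounds above `h`
      (∀ R : ℕ → ℕ → ℕ → ℕ → Bool,
        Computable (fun q : ℕ × ℕ × ℕ × ℕ => R q.1 q.2.1 q.2.2.1 q.2.2.2) →
        ∃ f : ℕ → Nat.Partrec.Code, Computable f ∧ ∀ x, ∃ t : ℕ → ℕ,
          (∀ n, t n ∈ (f x).eval n) ∧ Monotone t ∧ (∀ n, n ≤ t n ∧ h n ≤ t n) ∧
          (coNTIME t = NTIME t ↔ ∀ a, ∃ b, ∀ d, R x a b d = true)) ∧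
      -- no `Sigma^0_3` description, even for nondecreasing bounds above `h`
      ¬ ∃ S : Nat.Partrec.Code → ℕ → ℕ → ℕ → Bool,
        Computable (fun q : Nat.Partrec.Code × ℕ × ℕ × ℕ => S q.1 q.2.1 q.2.2.1 q.2.2.2) ∧
        ∀ (c : Nat.Partrec.Code) (t : ℕ → ℕ), (∀ n, t n ∈ c.eval n) → Monotone t →
          (∀ n, n ≤ t n ∧ h n ≤ t n) →
          (coNTIME t = NTIME t ↔ ∃ a, ∀ b, ∃ d, S c a b d = true) :=
  ⟨⟨mat, computable_mat, mat_spec⟩, fun h hh => ⟨hardness h hh, not_sigma3 h hh⟩⟩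

end Pool.Agent.Results.MP_fa4772_lc.Pi03Complete
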